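import Pool.Agent.H20.RT.Stmts

/-!
Board rt (MP_a315fd_nt): row TWD.
-/

set_option autoImplicit false

namespace Pool.RT

theorem TWD_ofDigits_zeros (k : ℕ) : Nat.ofDigits 10 (List.replicate k 0) = 0 := by
  induction k with
  | zero => simp
  | succ k ih => simp [List.replicate_succ, Nat.ofDigits_cons, ih]

theorem TWD_base (k : ℕ) : (List.replicate k 0).Pairwise (fun a b : ℕ => b ≤ a) ∧
    ∀ y ∈ List.replicate k 0, y ≤ 0 := by
  refine ⟨List.pairwise_replicate.2 (Or.inr le_rfl), ?_⟩
  intro y hy
  exact (List.mem_replicate.1 hy).2.le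

theorem TWD_step {c c' k : ℕ} {L : List ℕ}
    (h : L.Pairwise (fun a b : ℕ => b ≤ a) ∧ ∀ y ∈ L, y ≤ c) (hc : c ≤ c') :
    (List.replicate k c' ++ L).Pairwise (fun a b : ℕ => b ≤ a) ∧
      ∀ y ∈ List.replicate k c' ++ L, y ≤ c' := by
  constructor
  · rw [List.pairwise_append]
    refine ⟨List.pairwise_replicate.2 (Or.inr le_rfl), h.1, ?_⟩
    intro a ha b hb
    rw [(List.mem_replicate.1 ha).2]
    exact (h.2 b hb).trans hc
  · intro y hy
    rcases List.mem_append.1 hy with hy | hy
    · exact (List.mem_replicate.1 hy).2.le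
    · exact (h.2 y hy).trans hc

theorem TWD_thm : TWDStmt := by
  intro x a1 a2 a3 a4 a5 a6 a7 a8 a9 h1 h2 h3 h4 h5 h6 h7 h8 h9
  have hT : T x = Nat.ofDigits 10 ((Nat.digits 10 (x + rv x)).mergeSort
      (fun a b => decide (b ≤ a))) := rfl
  have hlt : ∀ y ∈ Nat.digits 10 (x + rv x), y < 10 :=
    fun y hy => Nat.digits_lt_base (by norm_num) hy
  unfold cnt at h1 h2 h3 h4 h5 h6 h7 h8 h9
  rw [hT]
  generalize Nat.digits 10 (x + rv x) = D at h1 h2 h3 h4 h5 h6 h7 h8 h9 hlt ⊢
  have hperm : (D.mergeSort (fun a b => decide (b ≤ a))).Perm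
      (wl a1 a2 a3 a4 a5 a6 a7 a8 a9 ++ List.replicate (D.count 0) 0) := by
    refine (List.mergeSort_perm _ _).trans ?_
    rw [List.perm_iff_count]
    intro a
    by_cases ha : a < 10
    · interval_cases a <;> simp [wl, List.count_replicate, *]
    · have e1 : D.count a = 0 := List.count_eq_zero.2 (fun hm => ha (hlt a hm))
      have e2 : ∀ c : ℕ, c < 10 → (c == a) = false := by
        intro c hc
        rw [beq_eq_false_iff_ne]
        omega
      rw [e1]
      simp [wl, List.count_replicate, e2]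
  have hs1 : (D.mergeSort (fun a b => decide (b ≤ a))).Pairwise (fun a b => b ≤ a) := by
    have := List.pairwise_mergeSort (le := fun a b : ℕ => decide (b ≤ a))
      (by intro a b c hab hbc; simp only [decide_eq_true_eq] at *; omega)
      (by intro a b; simp only [Bool.or_eq_true, decide_eq_true_eq]; omega) D
    exact this.imp (by intro a b h; simpa using h)
  have hs2 : (wl a1 a2 a3 a4 a5 a6 a7 a8 a9 ++ List.replicate (D.count 0) 0).Pairwise
      (fun a b => b ≤ a) := by
    simp only [wl, List.append_assoc]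
    exact (TWD_step (TWD_step (TWD_step (TWD_step (TWD_step (TWD_step (TWD_step (TWD_step (TWD_step
      (TWD_base _) (by norm_num)) (by norm_num)) (by norm_num)) (by norm_num)) (by norm_num))
      (by norm_num)) (by norm_num)) (by norm_num)) (by norm_num)).1
  have he := List.Perm.eq_of_pairwise (le := fun a b : ℕ => b ≤ a)
    (by intro a b _ _ h h'; omega) hs1 hs2 hperm
  rw [he, Nat.ofDigits_append, TWD_ofDigits_zeros, mul_zero, add_zero]
  rfl

end Pool.RT
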